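import Pool.Agent.H961R3.Smyth.Stmts2

open scoped NumberField

namespace Pool.Agent.H961R3.Smyth

theorem s12 : S12 := by
  intro K _ _ r
  have h := NumberField.Embeddings.finite_of_norm_le K ℂ r
  refine (h.preimage (f := fun c : 𝓞 K => (c : K)) ?_).subset ?_
  · exact (NumberField.RingOfIntegers.coe_injective).injOn
  · intro c hc
    refine ⟨NumberField.RingOfIntegers.isIntegral_coe c, fun φ => ?_⟩
    exact (norm_le_pi_norm (emb K c) φ).trans hc

end Pool.Agent.H961R3.Smyth
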